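import Mathlib
import Pool.Agent.H16.FQ.Adapt
import Pool.Agent.H50.Q.Cov
import Pool.Agent.H84.Q.RS
import Pool.Agent.H95.End.Leaf
import Pool.Agent.H31.Q.Fin

set_option autoImplicit false

/-!
MP_a46c6f_co, full Q1: glue of the rows (A), (C), (D), (E), (F); row (B) is a hypothesis.
-/

namespace Pool.Agent.H27.Q

open SimpleGraph Pool.Agent.H5.Goddyn Pool.Agent.H98.TC Pool.Agent.H64.Pent Pool.Agent.H98.Code
open Pool.Agent.H57.Code

/-- row (B) -/
def RowB : Prop :=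
  ∀ (X : Type) [Fintype X] [DecidableEq X] (B : Submodule (ZMod 2) (X → K)) (e : X)
    (S : (X → K) → Finset X → Prop), IsCode B → NoZ B → Pool.Agent.H77.Q.RSides B e S →
      (graph B).IsTree

/-- the sides of helper31 are sides in the sense of helper95 -/
theorem sides95 {V : Type} [Fintype V] [DecidableEq V] {L : Submodule (ZMod 2) (V → K)}
    {S : (V → K) → Finset V → Prop} (hS : Pool.Agent.H31.Q.Sides L S) :
    Pool.Agent.H95.End.Sides L S where
  mem u Y h := (hS.mem u Y h).1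
  own u Y h := (hS.mem u Y h).2
  ex := hS.ex
  compl u Y h := by
    obtain ⟨Y', h1, h2⟩ := hS.compl u Y h
    exact ⟨Y', h1, fun v hv => (h2 v).trans ⟨fun h3 => h3.2, fun h3 => ⟨hv, h3⟩⟩⟩
  part u Y h u' hu' hle := by
    obtain ⟨k', hk', e1, e2, e3, ⟨Y1, hY1, e4⟩, Y2, hY2, e5⟩ := hS.part u Y h u' hu' hle
    refine ⟨k', Y1, Y2, e4, ?_, hY1, hY2, e1, e2, e3⟩
    rw [add_comm]
    exact e5

theorem code_end (hB : RowB) {V : Type} [Fintype V] [DecidableEq V]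
    (L : Submodule (ZMod 2) (V → K)) (S : (V → K) → Finset V → Prop) (hcard : 2 ≤ Fintype.card V)
    (hL : IsCode L) (hz1 : (fun _ => z) ∈ L) (hz : ∀ u ∈ L, ZOnly u → u = 0 ∨ u = fun _ => z)
    (hS : Pool.Agent.H31.Q.Sides L S) :
    ∃ (g a b : V) (c : V → K), a ≠ b ∧ a ≠ g ∧ b ≠ g ∧ S c ∅ ∧ c g = z ∧ (c a).1 = 1 ∧
      (c b).1 = 1 ∧ ∀ v, v ≠ g → v ≠ a → v ≠ b → c v = 0 := by
  classical
  have hiso : ∀ u ∈ L, ∀ w ∈ L, form u w = 0 := hL.1
  refine Pool.Agent.H16.FQ.adapt hL hz1 hz hcard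
    (fun u hu h0 hf he => Pool.Agent.H50.Q.wc_off hS hu h0 hf he)
    (Pool.Agent.H50.Q.splitFull_of_sides hiso hS) ?_ ?_
  · intro e D P M0 t h hD hDe hP hM0 hM1 ht h1 h2
    have heW : ∀ M ∈ P.erase M0, e ∉ M := fun M hM =>
      (hP.mem M (Finset.mem_of_mem_erase hM)).2.1
    exact hB _ _ _ _ h1 h2 (Pool.Agent.H84.Q.rsides h.iso (Pool.Agent.H16.FQ.toParts hP)
      (Finset.erase_subset _ _) h.letter ht heW hS)
  · intro e D P M0 h hD hDe hP hM0 hmax hM1 hgz y hy hleaf hr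
    exact Pool.Agent.H95.End.own_free (sides95 hS) h.iso hz1 h.noz h.letter hP hM0 hmax hgz y hy
      hleaf hr

theorem main_of_rowB (hB : RowB) {V : Type*} [Finite V] (G : SimpleGraph V) (M C₁ C₂ : G.Subgraph)
    (h : IsPermutationGraph G M C₁ C₂) (hcrit : IsCriticalContraPair G (wt M)) :
    IsPetersenPair G M := by
  refine Pool.Agent.H31.Q.petersen_of_sides ?_ G M C₁ C₂ h hcrit.2
  intro n _ L S h5 hodd hL hz1 hz hS
  refine code_end hB L S ?_ hL hz1 hz hS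
  have hc : Fintype.card (ZMod n) = n := ZMod.card n
  omega

end Pool.Agent.H27.Q
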