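import Mathlib
import Pool.Agent.H27.Q.Glue
import Pool.Agent.H81.Q.Tree

set_option autoImplicit false

/-!
MP_a46c6f_co, full Q1.
-/

namespace Pool.Agent.H27.Q

open SimpleGraph Pool.Agent.H5.Goddyn Pool.Agent.H98.TC Pool.Agent.H64.Pent

theorem main {V : Type*} [Finite V] (G : SimpleGraph V) (M C₁ C₂ : G.Subgraph)
    (h : IsPermutationGraph G M C₁ C₂) (hcrit : IsCriticalContraPair G (wt M)) :
    IsPetersenPair G M :=
  main_of_rowB (fun _ _ _ _ _ _ hB hz hS => Pool.Agent.H81.Q.tree_of_sides hB hz hS) G M C₁ C₂ h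
    hcrit

end Pool.Agent.H27.Q
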